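import Pool.Agent.ROT.Mat
import Pool.Agent.ROT.VC

/-!
# QP: a quasi-polynomial bound for translated partial matchings (MP_bd0985_co), definitions

Items `ι`, sites `κ`, weights `w : κ → ι → ℝ`.
-/

set_option autoImplicit false

namespace Pool.Agent.QP

open Pool.Agent.ROT

variable {ι κ : Type}

/-- There are offsets `ψ` of the sites such that for every item `e ∈ Z` the site `own e` belongs to
`Λ` and is the unique maximiser of `w ℓ e - ψ ℓ` over `Λ`. -/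
def RM (w : κ → ι → ℝ) (Λ : Finset κ) (Z : Finset ι) (own : ι → κ) : Prop :=
  ∃ ψ : κ → ℝ, ∀ e ∈ Z, own e ∈ Λ ∧
    ∀ ℓ ∈ Λ, ℓ ≠ own e → w ℓ e - ψ ℓ < w (own e) e - ψ (own e)

/-- Common order: the differences `w ℓ - w r`, `ℓ ∈ Λ₁`, `r ∈ Λ₂`, all decrease along one strict
order `o` of the items of `X`. -/
def CO (w : κ → ι → ℝ) (X : Finset ι) (Λ₁ Λ₂ : Finset κ) : Prop :=
  ∃ o : ι → ℝ, (∀ e ∈ X, ∀ e' ∈ X, o e = o e' → e = e') ∧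
    ∀ ℓ ∈ Λ₁, ∀ r ∈ Λ₂, ∀ e ∈ X, ∀ e' ∈ X, o e < o e' → w ℓ e' - w r e' < w ℓ e - w r e

/-- Complete binary trees of depth `d` whose bottom sets satisfy `Q`. -/
def CT [DecidableEq κ] (w : κ → ι → ℝ) (X : Finset ι) (Q : Finset κ → Prop) : ℕ → Finset κ → Prop
  | 0, Λ => Q Λ
  | d + 1, Λ => ∃ Λ₁ Λ₂ : Finset κ, Λ = Λ₁ ∪ Λ₂ ∧ Disjoint Λ₁ Λ₂ ∧ CO w X Λ₁ Λ₂ ∧
      CT w X Q d Λ₁ ∧ CT w X Q d Λ₂

/-- The constants of the recursion. -/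
def Cc (k : ℕ) : ℝ := ((k : ℝ) + 1) * (k + 2) * (k + 3)

end Pool.Agent.QP
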